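import Pool.Agent.W282.RW.Main
import Pool.Agent.W282.LF.Top
import Pool.Agent.W67.RW.Dom
import Pool.Agent.W356.RW.Cnt

/-!
# MP_0704bf_ag: Zilber-Pink for the variations of Hodge structure of a positive proportion of all
Weierstrass families of elliptic curves over an arbitrary projective variety

`B ⊆ P^N` is an arbitrary projective variety over the algebraic numbers: the set of zeros of a
family `G` of forms with algebraic coefficients. `HasDim G m` says that `B` has dimension `m`.
Let `n > m` and let `e_1, …, e_n` be positive integers. For forms `A_i` of degree `4 e_i` and `B_i`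
of degree `6 e_i` in `y_0, …, y_N` with integral coefficients consider the families of elliptic
curves

  `E_i : y² = x³ + A_i x + B_i`   (Weierstrass families with fundamental line bundle `O(e_i)`)

over `S = {b ∈ B | 4 A_i(b)³ + 27 B_i(b)² ≠ 0 for all i}`, and the polarizable variation of Hodge
structure `V = ⊕ R¹π_{i*} ℤ` on `S` (on the smooth part of `S`, if `B` is not smooth). Its period
domain is the product `D` of `n` upper half planes, `Γ = SL_2(ℤ)^n`. By the elliptic modular
function `jj = j = E₄³ / Δ` the quotient `Γ \ D` is identified with `Y(1)^n = ℂ^n`, and the period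
map `Φ` is given by the `j`-invariants `6912 A_i³ / (4 A_i³ + 27 B_i²)` (`period`).

The Hodge subvarieties `Γ' \ D'` of `Γ \ D` are the special subvarieties of `Y(1)^n`. Those of
dimension `r` are given by `H294ZP.SpecialDatum n r`: `Z.locus` is the set of the points `x` with
`x_i = j (τ_i)` (`τ_i` a fixed CM point) for the constant coordinates, and `x_i = j (g_i z_k)` for
the coordinates of class `k`, where `z_1, …, z_r` are free in the upper half plane and `g_i` is a
fixed integral matrix of positive determinant.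

Theorem: for a positive proportion of all `n`-tuples of Weierstrass families with coefficients in
a box, as the box grows in all directions (the bounds `h i` for the coefficients of `A_i` and `h' i`
for those of `B_i` are arbitrary numbers `≥ H₀`), `Φ(S)` has dimension `m`, and every irreducible
constructible subset `W` of `Φ(S) ∩ Γ' \ D'` satisfies `dim W + (n - m) ≤ dim Γ' \ D'`. This says
that `codim Φ(Z) ≥ codim Φ(S) + codim Γ' \ D'` for all special subvarieties `Z` of `S` for `V`
(`Z` a component of `Φ⁻¹(Γ' \ D')`). So there is no atypical special subvariety, except possibly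
those contained in the singular locus `S^sing`, a proper closed subset, in which every special
subvariety is atypical by definition. For `Z = S` one gets that `Φ(S)` is contained in no proper
special subvariety, and so `D` is the generic Mumford-Tate domain of `V`, if `B` is irreducible.
-/

namespace Pool.Agent.Results.MP_0704bf_ag.RandomWeierstrassFamilies

open H294ZP MvPolynomial Pool.Agent.W282.ZP

/-- The value at `y` of the form of degree `d` with integral coefficients `c e`, the monomials of
degree `d` in `y_0, …, y_N` being indexed by the multisets `e` of size `d`. -/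
noncomputable def value {N d : ℕ} (c : Sym (Fin (N + 1)) d → ℤ) (y : Fin (N + 1) → ℂ) : ℂ :=
  ∑ e : Sym (Fin (N + 1)) d, (c e : ℂ) * ((e : Multiset (Fin (N + 1))).map y).prod

/-- `y` is a vector of homogeneous coordinates of a point of the projective algebraic set `B`
defined by the forms `G k`. -/
def OnB {N : ℕ} {κ : Type*} (G : κ → MvPolynomial (Fin (N + 1)) ℂ) (y : Fin (N + 1) → ℂ) : Prop :=
  y ≠ 0 ∧ ∀ k, eval y (G k) = 0

/-- The projective algebraic set defined by the forms `G k` has dimension `m`: it does not meet some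
linear subspace defined by `m + 1` linear forms, and it meets every linear subspace defined by `m`
linear forms. -/
def HasDim {N : ℕ} {κ : Type*} (G : κ → MvPolynomial (Fin (N + 1)) ℂ) (m : ℕ) : Prop :=
  (∃ t : Fin (m + 1) → Fin (N + 1) → ℂ, ∀ y, OnB G y → ∃ b, ∑ j, t b j * y j ≠ 0) ∧
    ∀ t : Fin m → Fin (N + 1) → ℂ, ∃ y, OnB G y ∧ ∀ b, ∑ j, t b j * y j = 0

/-- The `n`-tuples of Weierstrass equations `y² = x³ + A_i x + B_i`: the coefficients of the forms
`A_i = f.1 i` of degree `4 e_i` and `B_i = f.2 i` of degree `6 e_i`. -/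
abbrev Family (N : ℕ) {n : ℕ} (e : Fin n → ℕ) : Type :=
  (∀ i, Sym (Fin (N + 1)) (4 * e i) → ℤ) × (∀ i, Sym (Fin (N + 1)) (6 * e i) → ℤ)

variable {N n : ℕ} {e : Fin n → ℕ}

/-- The families with coefficients bounded by `h i` (for `A_i`) and `h' i` (for `B_i`). -/
def box (N : ℕ) {n : ℕ} (e : Fin n → ℕ) (h h' : Fin n → ℕ) : Set (Family N e) :=
  {f | (∀ i u, |f.1 i u| ≤ h i) ∧ ∀ i u, |f.2 i u| ≤ h' i}

/-- The discriminant `4 A_i³ + 27 B_i²`. -/
noncomputable def disc (f : Family N e) (i : Fin n) (y : Fin (N + 1) → ℂ) : ℂ :=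
  4 * value (f.1 i) y ^ 3 + 27 * value (f.2 i) y ^ 2

/-- The period map, given by the `j`-invariants `1728 · 4 A_i³ / (4 A_i³ + 27 B_i²)`. -/
noncomputable def period (f : Family N e) (y : Fin (N + 1) → ℂ) (i : Fin n) : ℂ :=
  6912 * value (f.1 i) y ^ 3 / disc f i y

/-- `y` is a point of the base `S` of the families. -/
def OnS {κ : Type*} (G : κ → MvPolynomial (Fin (N + 1)) ℂ) (f : Family N e)
    (y : Fin (N + 1) → ℂ) : Prop :=
  OnB G y ∧ ∀ i, disc f i y ≠ 0

/-- The image `Φ(S)` of the period map. -/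
def image {κ : Type*} (G : κ → MvPolynomial (Fin (N + 1)) ℂ) (f : Family N e) :
    Set (Fin n → ℂ) :=
  {x | ∃ y, OnS G f y ∧ x = period f y}

/-- The image `Φ(S)` together with all its limit points: a closed subset of `Y(1)^n` which
contains it. -/
def closedImage {κ : Type*} (G : κ → MvPolynomial (Fin (N + 1)) ℂ) (f : Family N e) :
    Set (Fin n → ℂ) :=
  {x | ∃ y, OnB G y ∧ ∀ i, disc f i y * x i = 6912 * value (f.1 i) y ^ 3}

/-- There are no intersections of `X` with special subvarieties `Z.locus` of `Y(1)^n` of too large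
dimension, where `m` is the dimension of `X`: every point of `X ∩ Z.locus` has transcendence degree
at most `dim Z - (n - m)`, and every irreducible closed set `W`, such that its points outside of
some hypersurface `g = 0`, which does not contain `W`, are in `X ∩ Z.locus`, has dimension at most
`dim Z - (n - m)`. -/
def NoAtypical (m : ℕ) (X : Set (Fin n → ℂ)) : Prop :=
  ∀ (r : ℕ) (Z : SpecialDatum n r),
    (∀ x ∈ X ∩ Z.locus, ∀ S : Finset (Fin n), AlgebraicIndependent ℚ (fun i : S => x i) →
      S.card + (n - m) ≤ r) ∧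
    ∀ (W : Set (Fin n → ℂ)) (g : MvPolynomial (Fin n) ℂ),
      (∀ w ∈ W, eval w g ≠ 0 → w ∈ X ∩ Z.locus) → zcl W ⊆ W → (idealOf W).IsPrime →
      g ∉ idealOf W → zdim W + ((n - m : ℕ) : Cardinal) ≤ (r : Cardinal)

/-- For a positive proportion of all `n`-tuples of Weierstrass families over an arbitrary projective
variety `B` of dimension `m < n` over the algebraic numbers the image of the period map has
dimension `m` (the first `m` of the `j`-invariants are algebraically independent at some point) and
no atypical intersections with the special subvarieties. -/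
theorem result {κ : Type*} (N n m : ℕ) (e : Fin n → ℕ) (he : ∀ i, 0 < e i) (hmn : m < n)
    (G : κ → MvPolynomial (Fin (N + 1)) ℂ) (hhom : ∀ k, ∃ e, (G k).IsHomogeneous e)
    (halg : ∀ k s, IsAlgebraic ℚ ((G k).coeff s)) (hdim : HasDim G m) :
    ∃ δ : ℝ, 0 < δ ∧ ∃ H₀ : ℕ, ∀ h h' : Fin n → ℕ, (∀ i, H₀ ≤ h i ∧ H₀ ≤ h' i) →
      δ * ((box N e h h').ncard : ℝ) ≤ ((box N e h h' ∩ {f |
        (∃ y, OnS G f y ∧
          AlgebraicIndependent ℚ (fun i : Fin m => period f y (Fin.castLE hmn.le i))) ∧
        image G f ⊆ closedImage G f ∧ NoAtypical m (closedImage G f)}).ncard : ℝ) := by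
  classical
  have h1 : ∃ t : Fin (m + 1) → Fin (N + 1) → ℂ, ∀ y : Fin (N + 1) → ℂ,
      (∀ k, eval y (G k) = 0) → (∀ b, ∑ j, t b j * y j = 0) → y = 0 := by
    obtain ⟨t, ht⟩ := hdim.1
    refine ⟨t, fun y hy hb => ?_⟩
    by_contra h0
    obtain ⟨b, hb'⟩ := ht y ⟨h0, hy⟩
    exact hb' (hb b)
  have h2 : ∀ t : Fin m → Fin (N + 1) → ℂ, ∃ y : Fin (N + 1) → ℂ, y ≠ 0 ∧
      (∀ k, eval y (G k) = 0) ∧ ∀ i, ∑ j, t i j * y j = 0 := by
    intro t
    obtain ⟨y, hy, hb⟩ := hdim.2 t
    exact ⟨y, hy.1, hy.2, hb⟩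
  obtain ⟨δ, hδ, H₀, h⟩ := Pool.Agent.W282.RW.main Pool.Agent.W67.RW.dom Pool.Agent.W356.RW.cnt2 N n m e he hmn G hhom halg h1 h2
  refine ⟨δ, hδ, H₀, fun b b' hb => (h b b' hb).trans ?_⟩
  have hfin : (box N e b b').Finite := Pool.Agent.W282.RW.box_finite' N e b b'
  refine Nat.cast_le.2 (Set.ncard_le_ncard ?_ (hfin.subset fun f hf => hf.1))
  rintro f ⟨hf1, ⟨y, hy0, hyG, hyd, hyI⟩, hf3⟩
  refine ⟨hf1, ⟨y, ⟨⟨hy0, hyG⟩, hyd⟩, hyI⟩, ?_, ?_⟩
  · rintro x ⟨y, ⟨hyB, hyd⟩, rfl⟩
    exact ⟨y, hyB, fun i => mul_div_cancel₀ _ (hyd i)⟩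
  intro r Z
  have hpt : ∀ x ∈ closedImage G f ∩ Z.locus, ∀ S : Finset (Fin n),
      AlgebraicIndependent ℚ (fun i : S => x i) → S.card + (n - m) ≤ r := by
    rintro x ⟨⟨y, ⟨hy0, hyG⟩, hxy⟩, hx⟩ S hS
    exact hf3 r Z x hx y hy0 hyG hxy S hS
  refine ⟨hpt, ?_⟩
  intro W g hW hcl hprime hg
  obtain ⟨w, hwW, hgw, T, hT, hdimW⟩ :=
    Pool.Agent.W282.LF.generic_dim_open ℚ W hprime hcl g hg
  have h3 := hpt w (hW w hwW hgw) T hT
  calc zdim W + ((n - m : ℕ) : Cardinal) ≤ (T.card : Cardinal) + ((n - m : ℕ) : Cardinal) := by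
        gcongr
    _ = ((T.card + (n - m) : ℕ) : Cardinal) := by push_cast; rfl
    _ ≤ (r : Cardinal) := by exact_mod_cast h3

end Pool.Agent.Results.MP_0704bf_ag.RandomWeierstrassFamilies
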